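import Mathlib
import Pool.Agent.MP_df3d6f_co.Med6
import Pool.Agent.MP_df3d6f_co.PieceBound

namespace Pool.Agent.Results.MP_df3d6f_co.FewArcs

open Pool.Agent.MP_df3d6f_co Finset

/-- Let `G` be drawn on the circle with every edge crossed at most `k` times, let the circle be cut
into `r` arcs (the classes of `c`), and suppose that in the arc `i` all pairs of vertices whose
distance along the arc is in `S i` are adjacent, where `S i` is a set of integers between `1` and
`k` (possibly empty).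
Then `(√((k - 2 J) / 2) + 17) n + 50 k² (r + 1)` bounds the number of edges joining different arcs,
if every vertex has `J ≤ ∑ (s - 1)`, the sum over the set `S i` of its arc.
The total number of edges is at most `(2 √(k / 3) + 18) n + 50 k² (r + 1)` plus the number of edges
inside an arc `i` whose length is not in `S i`. -/
theorem result (k n r : ℕ) (hk : 1 ≤ k) (hn : 1 ≤ n) (G : SimpleGraph (Fin n)) (hG : Drawn k G)
    (c : Fin n → ℕ) (hc : Monotone c) (hr : ∀ v, c v < r) (S : ℕ → Finset ℕ)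
    (hS : ∀ i, ∀ s ∈ S i, 1 ≤ s ∧ s ≤ k)
    (hin : ∀ u v : Fin n, u < v → c u = c v → (v : ℕ) - u ∈ S (c u) → G.Adj u v) :
    (∀ J : ℕ, (∀ v, J ≤ ∑ s ∈ S (c v), (s - 1)) →
      ({e ∈ G.edgeSet | ∃ u v, e = s(u, v) ∧ c u ≠ c v}.ncard : ℝ) ≤
        (√((k - 2 * J) / 2) + 17) * n + 50 * k ^ 2 * (r + 1)) ∧
    (G.edgeSet.ncard : ℝ) ≤ (2 * √(k / 3) + 18) * n + 50 * k ^ 2 * (r + 1) +
      ({e ∈ G.edgeSet | ∃ u v, e = s(u, v) ∧ u < v ∧ c u = c v ∧
        (v : ℕ) - u ∉ S (c u)}.ncard : ℝ) := by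
  classical
  have hGood := good_of_outer (val_inj n) hG
  rw [vset_val] at hGood
  set E := eset (fun x : Fin n => (x : ℕ)) G with hE
  -- extension of `c`
  obtain ⟨c', hc'⟩ : ∃ c' : ℕ → ℕ, ∀ x, c' x = if h : x < n then c ⟨x, h⟩ else r :=
    ⟨_, fun _ => rfl⟩
  have hcv : ∀ v : Fin n, c' v = c v := fun v => by rw [hc', dif_pos v.2]
  have hmono : Monotone c' := by
    intro x y hxy
    rw [hc', hc']
    by_cases hy : y < n
    · rw [dif_pos hy, dif_pos (lt_of_le_of_lt hxy hy)]
      exact hc hxy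
    · rw [dif_neg hy]
      split_ifs with hx
      · exact (hr _).le
      · exact le_rfl
  have hlt : ∀ v < n, c' v < r := by
    intro v hv
    rw [hc', dif_pos hv]
    exact hr _
  have hpow : ∀ a b, a < b → b < n → c' a = c' b → b - a ∈ S (c' a) → (a, b) ∈ E := by
    intro a b hab hb h1 h2
    have ha : a < n := by omega
    rw [hc' a, dif_pos ha] at h1 h2
    rw [hc' b, dif_pos hb] at h1
    have hadj : G.Adj ⟨a, ha⟩ ⟨b, hb⟩ := hin ⟨a, ha⟩ ⟨b, hb⟩ hab h1 h2
    exact eset_mem_val hadj hab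
  have hcard : E.card = G.edgeSet.ncard := card_eset (val_inj n) G
  obtain ⟨h1, h2⟩ := piece_bound hn hk hGood hmono hlt hS hpow
  -- transfer of counts
  have htrans : ∀ (p : ℕ × ℕ → Prop) [DecidablePred p] (q : Sym2 (Fin n) → Prop),
      (∀ a b : Fin n, (a : ℕ) < b → (q s(a, b) ↔ p ((a : ℕ), (b : ℕ)))) →
      {e ∈ G.edgeSet | q e}.ncard = (E.filter p).card := by
    intro p _ q hpq
    have himg : E.filter p = ((Set.toFinite {e ∈ G.edgeSet | q e}).toFinset).image
        (phi (fun x : Fin n => (x : ℕ))) := by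
      ext f
      rw [mem_filter, mem_image]
      constructor
      · rintro ⟨hf, hp⟩
        obtain ⟨a, b, hadj, hab, rfl⟩ := mem_eset_val hf
        refine ⟨s(a, b), ?_, phi_mk _ a b hab⟩
        rw [Set.Finite.mem_toFinset]
        exact ⟨hadj, (hpq a b hab).mpr hp⟩
      · rintro ⟨e, he, rfl⟩
        rw [Set.Finite.mem_toFinset] at he
        obtain ⟨he, hq⟩ := he
        obtain ⟨a, b, rfl, hab, hadj⟩ := exists_rep (val_inj n) he
        rw [phi_mk _ a b hab]
        exact ⟨eset_mem_val hadj hab, (hpq a b hab).mp hq⟩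
    rw [himg, card_image_of_injective _ (phi_injective (val_inj n)),
      Set.ncard_eq_toFinset_card _ (Set.toFinite _)]
  have hpw : 50 * ((k : ℝ) * k) * (r + 1) = 50 * k ^ 2 * (r + 1) := by ring
  refine ⟨?_, ?_⟩
  · intro J hJ
    rw [htrans (fun e => c' e.1 ≠ c' e.2) (fun e => ∃ u v, e = s(u, v) ∧ c u ≠ c v), ← hpw]
    · refine h1 J (fun v hv => ?_)
      have := hJ ⟨v, hv⟩
      rw [hc', dif_pos hv]
      exact this
    · intro a b _
      simp only [hcv]
      constructor
      · rintro ⟨u, v, huv, hne⟩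
        rw [Sym2.eq_iff] at huv
        rcases huv with ⟨rfl, rfl⟩ | ⟨rfl, rfl⟩
        · exact hne
        · exact hne.symm
      · exact fun hne => ⟨a, b, rfl, hne⟩
  · rw [htrans (fun e => c' e.1 = c' e.2 ∧ e.2 - e.1 ∉ S (c' e.1))
      (fun e => ∃ u v, e = s(u, v) ∧ u < v ∧ c u = c v ∧ (v : ℕ) - u ∉ S (c u)), ← hpw, ← hcard]
    · exact h2
    · intro a b hab
      simp only [hcv]
      constructor
      · rintro ⟨u, v, huv, hlt', h3, h4⟩
        rw [Sym2.eq_iff] at huv
        rcases huv with ⟨rfl, rfl⟩ | ⟨rfl, rfl⟩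
        · exact ⟨h3, h4⟩
        · exact absurd (lt_trans hlt' hab) (lt_irrefl _)
      · exact fun h => ⟨a, b, rfl, hab, h.1, h.2⟩

end Pool.Agent.Results.MP_df3d6f_co.FewArcs
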