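import Mathlib
import Pool.Agent.MP_df3d6f_co.Defs
import Pool.Agent.MP_df3d6f_co.PathPowCount

namespace Pool.Agent.Results.MP_df3d6f_co.LowerBound

open Pool.Agent.MP_df3d6f_co

/-- `G` has a drawing with its vertices in convex position (in the cyclic order given by `pos`) and
straight edges, in which every edge is crossed by at most `k` other edges and every side of the
convex polygon is an edge of `G`.  The outer boundary of the drawing is then this polygon, and no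
crossing lies on it. -/
def FullyOuterKPlanar {V : Type*} (k : ℕ) (G : SimpleGraph V) : Prop :=
  ∃ pos : V → ℕ, Function.Injective pos ∧
    (∀ e ∈ G.edgeSet, {f ∈ G.edgeSet | Crosses pos e f}.ncard ≤ k) ∧
    ∀ a b : V, pos a < pos b →
      ((∀ v, ¬ (pos a < pos v ∧ pos v < pos b)) ∨ (∀ v, pos a ≤ pos v ∧ pos v ≤ pos b)) →
      G.Adj a b

/-- For all `n` and `k` there is a fully-outer `k`-planar graph on `n` vertices with at least
`c n - c (c + 1) / 2` edges, where `c = 1 + ⌊√(1 + 4 k / 3)⌋ > 2 √(k / 3)`. -/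
theorem result (n k : ℕ) :
    ∃ G : SimpleGraph (Fin n), OuterKPlanar k G ∧ FullyOuterKPlanar k G ∧
      (1 + (⌊Real.sqrt (1 + 4 * k / 3)⌋₊ : ℝ)) * n
        - (1 + (⌊Real.sqrt (1 + 4 * k / 3)⌋₊ : ℝ)) * (2 + (⌊Real.sqrt (1 + 4 * k / 3)⌋₊ : ℝ)) / 2
        ≤ (G.edgeSet.ncard : ℝ) ∧
      2 * Real.sqrt (k / 3) * n - (1 + Real.sqrt (k / 3)) * (3 + 2 * Real.sqrt (k / 3))
        ≤ (G.edgeSet.ncard : ℝ) := by
  set m := ⌊Real.sqrt (1 + 4 * k / 3)⌋₊ with hm
  have hs0 : 0 ≤ Real.sqrt (1 + 4 * k / 3) := Real.sqrt_nonneg _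
  have hs1 : Real.sqrt (1 + 4 * k / 3) * Real.sqrt (1 + 4 * k / 3) = 1 + 4 * k / 3 :=
    Real.mul_self_sqrt (by positivity)
  have hm1 : (m : ℝ) ≤ Real.sqrt (1 + 4 * k / 3) := Nat.floor_le hs0
  have hm2 : Real.sqrt (1 + 4 * k / 3) < m + 1 := Nat.lt_floor_add_one _
  have hm3 : 1 ≤ m := by
    rw [hm]
    refine Nat.le_floor ?_
    rw [Nat.cast_one]
    exact Real.one_le_sqrt.mpr (by
      have : (0 : ℝ) ≤ 4 * k / 3 := by positivity
      linarith)
  have hk : 3 * ((m + 1) - 1) ^ 2 ≤ 4 * k + 3 := by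
    rw [Nat.add_sub_cancel]
    have h0 : (0 : ℝ) ≤ m := by positivity
    have : (3 * (m : ℝ) ^ 2) ≤ 4 * k + 3 := by nlinarith
    exact_mod_cast this
  have hcr := pathPow_cross (n := n) hk
  have hed : 2 * (((m : ℝ) + 1) * n) ≤
      2 * ((pathPow n (m + 1)).edgeSet.ncard : ℝ) + ((m : ℝ) + 1) * ((m : ℝ) + 1 + 1) := by
    exact_mod_cast pathPow_edges n (m + 1)
  refine ⟨pathPow n (m + 1), ⟨zpos n, zpos_inj n, hcr⟩, ⟨zpos n, zpos_inj n, hcr, ?_⟩, ?_, ?_⟩
  · exact fun a b hab h => pathPow_hull (by omega) a b hab h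
  · nlinarith
  · -- real form
    have hr0 : 0 ≤ Real.sqrt (k / 3) := Real.sqrt_nonneg _
    have hr1 : Real.sqrt (k / 3) * Real.sqrt (k / 3) = k / 3 :=
      Real.mul_self_sqrt (by positivity)
    have h1 : 2 * Real.sqrt (k / 3) ≤ (m : ℝ) + 1 := by
      by_contra hlt
      push Not at hlt
      nlinarith
    have h2 : (m : ℝ) ≤ 1 + 2 * Real.sqrt (k / 3) := by
      by_contra hlt
      push Not at hlt
      nlinarith
    have hn0 : (0 : ℝ) ≤ n := by positivity
    have h3 : 2 * Real.sqrt (k / 3) * n ≤ ((m : ℝ) + 1) * n :=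
      mul_le_mul_of_nonneg_right h1 hn0
    have h4 : ((m : ℝ) + 1) * ((m : ℝ) + 1 + 1) ≤
        (2 + 2 * Real.sqrt (k / 3)) * (3 + 2 * Real.sqrt (k / 3)) := by
      apply mul_le_mul <;> linarith
    nlinarith

end Pool.Agent.Results.MP_df3d6f_co.LowerBound
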