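import Mathlib
import Pool.Agent.MP_df3d6f_co.Med6

namespace Pool.Agent.Results.MP_df3d6f_co.MediumChords

open Pool.Agent.MP_df3d6f_co

/-- Let `c = (α + 1/α)/2` with `α ≥ 1` (so `c = 2/√3` for `α = √3`).  In every drawing on a circle
with every edge crossed at most `k` times the number of edges exceeds `c √k n`, up to lower order
terms, only through the excess degrees of bad vertices outside a small set `P`; the number of edges
of cyclic length at most `α √k` never exceeds it; and for `α ≤ √3` some drawings without bad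
vertices attain it. -/
theorem result (α : ℝ) (hα : 1 ≤ α) (k n : ℕ) (hk : 1 ≤ k) :
    (∀ G : SimpleGraph (Fin n), Drawn k G →
      (∀ P : Finset (Fin n), (G.edgeSet.ncard : ℝ) ≤
        (α + 1 / α) / 2 * √k * n + (∑ x ∈ Pᶜ, excess k α G x) / 2
          + 6 * √(k * n * (P.card + α * √k + α * n / √k)) + 12 * n) ∧
      ({e ∈ G.edgeSet | ∃ x y, e = s(x, y) ∧ (cw x y : ℝ) ≤ α * √k}.ncard : ℝ) ≤
        (α + 1 / α) / 2 * √k * n + 6 * √(k * n * (α * √k + α * n / √k)) + 12 * n) ∧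
    (α ≤ √3 → 2 ≤ (α - 1 / α) * √k → 2 * √k + 2 < n →
      ∃ G : SimpleGraph (Fin n), Drawn k G ∧ (∀ x, ¬ Bad k α G x) ∧
        (∀ x, ∃ y, G.Adj x y ∧ √k / α ≤ (cw x y : ℝ) ∧ (cw x y : ℝ) ≤ α * √k) ∧
        (α + 1 / α) / 2 * √k * n - n - 9 * k ≤ (G.edgeSet.ncard : ℝ)) := by
  refine ⟨fun G hG => ⟨fun P => upper_set α hα k n hk G hG P, short_edges α hα k n hk G hG⟩,
    fun h3 h2 hn => ?_⟩
  obtain ⟨G, hG, hch, hed⟩ := lower α hα k n hk h3 h2 hn
  refine ⟨G, hG, ?_, hch, hed⟩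
  rintro x ⟨-, hB⟩
  obtain ⟨y, hadj, h4, h5⟩ := hch x
  have h6 := hB y h4 h5
  have h7 := hG s(x, y) hadj
  omega

end Pool.Agent.Results.MP_df3d6f_co.MediumChords
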