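import Mathlib
import Pool.Agent.MP_df3d6f_co.Defs
import Pool.Agent.MP_df3d6f_co.Trans

namespace Pool.Agent.Results.MP_df3d6f_co.SqrtTwoK

open Pool.Agent.MP_df3d6f_co

/-- An outer `k`-planar graph on `n ≥ 2` vertices, `k ≥ 1`, has at most
`(√(2k) + 13/8) (n - 2) + 1` edges. -/
theorem result (n k : ℕ) (hn : 2 ≤ n) (hk : 1 ≤ k) (G : SimpleGraph (Fin n))
    (hG : OuterKPlanar k G) :
    (G.edgeSet.ncard : ℝ) ≤ (Real.sqrt (2 * k) + 13 / 8) * (n - 2) + 1 := by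
  obtain ⟨pos, hpos, hcr⟩ := hG
  have hgood := good_of_outer hpos hcr
  have hk' : (1 : ℝ) ≤ k := by exact_mod_cast hk
  set r := Real.sqrt (2 * k) with hr
  have hr2 : r * r = 2 * k := Real.mul_self_sqrt (by positivity)
  have hr0 : 0 ≤ r := Real.sqrt_nonneg _
  have hr1 : 1 ≤ r := by nlinarith
  set s := ⌊r + 1 / 2⌋₊ with hs
  have hs1 : (s : ℝ) ≤ r + 1 / 2 := Nat.floor_le (by linarith)
  have hs2 : r + 1 / 2 < s + 1 := Nat.lt_floor_add_one _
  have hs3 : 1 ≤ s := by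
    rw [hs]
    exact Nat.le_floor (by push_cast; linarith)
  have hs4 : (1 : ℝ) ≤ s := by exact_mod_cast hs3
  have h := main_bound k s hs3 (r + 13 / 8) (by linarith)
    (by nlinarith [mul_nonneg (sub_nonneg.mpr hs1) (sub_nonneg.mpr hs2.le)]) n
    (vset pos) (eset pos G) (by rw [card_vset hpos, Fintype.card_fin]) hn hgood
  rwa [card_eset hpos] at h

end Pool.Agent.Results.MP_df3d6f_co.SqrtTwoK
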